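import Pool.Agent.W851.BE.Stm

/-!
# Iterates of maps with a non-repelling fixed point at infinity
-/

open Polynomial Topology Filter MeasureTheory
open scoped ENNReal

namespace Pool.Agent.W381.BE

open Pool.Agent.W95.BK Pool.Agent.W851.BE

universe u

section
variable {K : Type u}

section field
variable [Field K]

lemma natDegree_P_le (f : RMap K) : f.P.natDegree ≤ f.d := f.deg_eq ▸ le_max_left _ _

lemma natDegree_Q_le (f : RMap K) : f.Q.natDegree ≤ f.d := f.deg_eq ▸ le_max_right _ _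

lemma natDegree_Q_lt (f : RMap K) (h : f.Q.coeff f.d = 0) : f.Q.natDegree ≤ f.d - 1 := by
  have h1 := natDegree_Q_le f
  have h2 := f.pos
  by_contra hc
  have h3 : f.Q.natDegree = f.d := by omega
  have h4 : f.Q ≠ 0 := by
    intro h0
    rw [h0, natDegree_zero] at h3
    omega
  apply h4
  rw [← leadingCoeff_eq_zero, leadingCoeff, h3, h]

lemma coeff_P_ne (f : RMap K) (h : f.Q.coeff f.d = 0) : f.P.coeff f.d ≠ 0 := by
  intro hP
  have h1 := natDegree_Q_lt f h
  have h2 := f.pos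
  have h3 : f.P.natDegree = f.d := by
    have h5 := f.deg_eq
    rcases max_choice f.P.natDegree f.Q.natDegree with h4 | h4 <;> omega
  have h4 : f.P ≠ 0 := by
    intro h0
    rw [h0, natDegree_zero] at h3
    omega
  apply h4
  rw [← leadingCoeff_eq_zero, leadingCoeff, h3, hP]

end field

variable [NontriviallyNormedField K]

lemma wr_coeff (f : RMap K) (h : f.Q.coeff f.d = 0) :
    (wr f).coeff (2 * f.d - 2) = f.P.coeff f.d * f.Q.coeff (f.d - 1) := by
  have h1 := natDegree_Q_lt f h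
  have h2 := f.pos
  have h3 := natDegree_P_le f
  unfold wr
  rw [coeff_sub]
  obtain ⟨m, hm⟩ : ∃ m, f.d = m + 1 := ⟨f.d - 1, by omega⟩
  have e1 : (derivative f.P * f.Q).coeff (2 * f.d - 2) =
      (f.P.coeff f.d * f.d) * f.Q.coeff (f.d - 1) := by
    have : 2 * f.d - 2 = (f.d - 1) + (f.d - 1) := by omega
    rw [this, coeff_mul_add_eq_of_natDegree_le ((natDegree_derivative_le _).trans (by omega)) h1,
      coeff_derivative, hm]
    simp
  have e2 : (f.P * derivative f.Q).coeff (2 * f.d - 2) =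
      f.P.coeff f.d * (f.Q.coeff (f.d - 1) * ((f.d - 1 : ℕ) : K)) := by
    rcases Nat.eq_zero_or_pos m with h0 | h0
    · have h4 : f.d = 1 := by omega
      have h5 : derivative f.Q = 0 := by
        apply derivative_of_natDegree_zero
        omega
      rw [h5, mul_zero, h4]
      simp
    · have : 2 * f.d - 2 = f.d + (m - 1) := by omega
      rw [this, coeff_mul_add_eq_of_natDegree_le h3
        ((natDegree_derivative_le _).trans (by omega)), coeff_derivative]
      have h6 : m - 1 + 1 = f.d - 1 := by omega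
      rw [h6]
      congr 2
      rw [← h6]
      push_cast
      rfl
  rw [e1, e2, hm]
  push_cast
  ring

lemma act_infty [IsUltrametricDist K] (f : RMap K) (h : NRI f) :
    f.act OnePoint.infty = OnePoint.infty := by
  unfold RMap.act
  rw [OnePoint.elim_infty, if_pos h.1]

lemma sphDeriv_infty (f : RMap K) (h : NRI f) : sphDeriv f OnePoint.infty ≤ 1 := by
  unfold sphDeriv
  rw [OnePoint.elim_infty, wr_coeff f h.1, h.1, norm_zero, max_eq_left (norm_nonneg _), norm_mul]
  have h1 : 0 < ‖f.P.coeff f.d‖ := norm_pos_iff.mpr (coeff_P_ne f h.1)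
  rw [div_le_one (by positivity), sq]
  exact mul_le_mul_of_nonneg_left h.2 h1.le

lemma comp_nri [IsAlgClosed K] (f g : RMap K) (hf : NRI f) (hg : NRI g) : NRI (f.comp g) := by
  have hgP := natDegree_P_le g
  have hgQ := natDegree_Q_le g
  have hgQ' := natDegree_Q_lt g hg.1
  have hfQ' := natDegree_Q_lt f hf.1
  have hfp := f.pos
  have hgp := g.pos
  have e1 : (f.comp g).Q.coeff (f.comp g).d = 0 := by
    show (hom f.d f.Q g.P g.Q).coeff (f.d * g.d) = 0
    rw [coeff_hom_top _ hgP hgQ, hg.1, sum_eq_top, hf.1, zero_mul]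
  have e2 : (f.comp g).P.coeff (f.comp g).d = f.P.coeff f.d * g.P.coeff g.d ^ f.d := by
    show (hom f.d f.P g.P g.Q).coeff (f.d * g.d) = _
    rw [coeff_hom_top _ hgP hgQ, hg.1, sum_eq_top]
  have e3 : (f.comp g).Q.coeff ((f.comp g).d - 1) =
      g.Q.coeff (g.d - 1) * (f.Q.coeff (f.d - 1) * g.P.coeff g.d ^ (f.d - 1)) := by
    show (hom f.d f.Q g.P g.Q).coeff (f.d * g.d - 1) = _
    obtain ⟨m, hm⟩ : ∃ m, f.d = m + 1 := ⟨f.d - 1, by omega⟩
    have hm' : f.d - 1 = m := by omega
    rw [hm'] at hfQ' ⊢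
    have h4 : f.d * g.d - 1 = (g.d - 1) + m * g.d := by
      rw [hm, add_mul, one_mul]
      omega
    rw [h4, hm, hom_succ hfQ', coeff_mul_add_eq_of_natDegree_le hgQ'
      (natDegree_hom_le _ hgP hgQ), coeff_hom_top _ hgP hgQ, hg.1, sum_eq_top]
  refine ⟨e1, ?_⟩
  rw [e3, e2, norm_mul, norm_mul, norm_mul, norm_pow, norm_pow]
  have h5 : ‖g.P.coeff g.d‖ ^ f.d = ‖g.P.coeff g.d‖ * ‖g.P.coeff g.d‖ ^ (f.d - 1) := by
    rw [← pow_succ']
    congr 1
    omega
  rw [h5]
  calc ‖g.Q.coeff (g.d - 1)‖ * (‖f.Q.coeff (f.d - 1)‖ * ‖g.P.coeff g.d‖ ^ (f.d - 1))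
      ≤ ‖g.P.coeff g.d‖ * (‖f.P.coeff f.d‖ * ‖g.P.coeff g.d‖ ^ (f.d - 1)) := by
        apply mul_le_mul hg.2 _ (by positivity) (norm_nonneg _)
        exact mul_le_mul_of_nonneg_right hf.2 (by positivity)
    _ = _ := by ring

lemma id_nri : NRI (RMap.id K) := by
  constructor
  · show (1 : K[X]).coeff 1 = 0
    rw [coeff_one]
    simp
  · show ‖(1 : K[X]).coeff (1 - 1)‖ ≤ ‖(X : K[X]).coeff 1‖
    simp

end

theorem main : S_NRIN.{u} := by
  intro K _ _ _ R hR n
  have h : NRI (R.iter n) := by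
    induction n with
    | zero => exact id_nri
    | succ n ih => exact comp_nri R (R.iter n) hR ih
  exact ⟨h, act_infty _ h, sphDeriv_infty _ h⟩

end Pool.Agent.W381.BE
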